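import Pool.Agent.Mg.F2e8011.Gff0872

namespace Pool.Agent.Results.MP_9e68e9_lc.Threshold

open Pool.Agent.MP_9e68e9_lc

theorem result : ∀ ε : ℝ, 0 < ε →
    FD (5 / 2 - ε) ∈ N68a2faeb.P ∧
    ∀ L ∈ N68a2faeb.NP, N793a5b8e.ManyOneReducible L (FD (5 / 2 + ε)) :=
  fun _ hε => ⟨low _ (by linarith), fun _ hL => high (by linarith) hL⟩

end Pool.Agent.Results.MP_9e68e9_lc.Threshold
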